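import Pool.Agent.Helper15.DAK.Stmts

/-!
# Row ALG of the project DAK: an operator which kills the traces of the kernel of a derivation
-/

open AlgebraicGeometry CategoryTheory TopologicalSpace Opposite

namespace Pool.Agent.Helper15.DAK

open Pool.Agent.Helper15.DAF

namespace S74

section Tr

variable {K L : Type} [Field K] [Field L] [Algebra ℂ K] [Algebra ℂ L] [Algebra K L]

theorem tr_pow (d : Module.End ℂ K) (D : Module.End ℂ L)
    (h : ∀ f : L, Algebra.trace K L (D f) = d (Algebra.trace K L f)) (k : ℕ) :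
    ∀ f : L, Algebra.trace K L ((D ^ k) f) = (d ^ k) (Algebra.trace K L f) := by
  induction k with
  | zero => intro f; rfl
  | succ k ih =>
    intro f
    rw [pow_succ, pow_succ, Module.End.mul_apply, Module.End.mul_apply, ih, h]

theorem tr_mon : ∀ (n : ℕ) (t : Fin n → Module.End ℂ K) (T : Fin n → Module.End ℂ L),
    (∀ i, ∀ f : L, Algebra.trace K L (T i f) = t i (Algebra.trace K L f)) →
    ∀ (α : Fin n → ℕ) (f : L),
      Algebra.trace K L (tmon T α f) = tmon t α (Algebra.trace K L f) := by
  intro n
  induction n with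
  | zero =>
    intro t T _ α f
    unfold tmon
    rw [List.ofFn_zero, List.ofFn_zero, List.prod_nil, List.prod_nil]
    rfl
  | succ n ih =>
    intro t T h α f
    have h1 := ih (fun i => t i.succ) (fun i => T i.succ) (fun i => h i.succ)
      (fun i => α i.succ) f
    unfold tmon at h1 ⊢
    rw [List.ofFn_succ, List.ofFn_succ, List.prod_cons, List.prod_cons, Module.End.mul_apply,
      Module.End.mul_apply, tr_pow (t 0) (T 0) (h 0), h1]

end Tr

theorem num (n d : ℕ) (hn : 1 ≤ n) :
    ∃ m : ℕ, (n * m + 1) ^ (n - 1) * d < (m + 1) ^ n := by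
  refine ⟨n ^ (n - 1) * d, ?_⟩
  set m := n ^ (n - 1) * d with hm
  have h1 : n * m + 1 ≤ n * (m + 1) := by
    rw [mul_add, mul_one]
    omega
  calc (n * m + 1) ^ (n - 1) * d ≤ (n * (m + 1)) ^ (n - 1) * d :=
        Nat.mul_le_mul_right _ (Nat.pow_le_pow_left h1 _)
    _ = (m + 1) ^ (n - 1) * m := by
        rw [mul_pow, hm]
        ring
    _ < (m + 1) ^ (n - 1) * (m + 1) := by
        apply Nat.mul_lt_mul_of_pos_left (Nat.lt_succ_self m)
        exact pow_pos (Nat.succ_pos m) _
    _ = (m + 1) ^ n := by
        rw [← pow_succ]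
        congr 1
        omega

/-- number of the multi-indices with a zero at `i0` -/
theorem cardB (n N : ℕ) (i0 : Fin n) :
    ((Fintype.piFinset fun _ : Fin n => Finset.range (N + 1)).filter
      (fun β => β i0 = 0)).card ≤ (N + 1) ^ (n - 1) := by
  have h1 : ((Fintype.piFinset fun _ : Fin n => Finset.range (N + 1)).filter
      (fun β => β i0 = 0)) ⊆
      Fintype.piFinset (fun i : Fin n => if i = i0 then {0} else Finset.range (N + 1)) := by
    intro β hβ
    rw [Finset.mem_filter, Fintype.mem_piFinset] at hβ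
    rw [Fintype.mem_piFinset]
    intro i
    by_cases hi : i = i0
    · rw [if_pos hi, hi, hβ.2]
      exact Finset.mem_singleton_self 0
    · rw [if_neg hi]
      exact hβ.1 i
  refine (Finset.card_le_card h1).trans ?_
  rw [Fintype.card_piFinset, ← Finset.mul_prod_erase Finset.univ _ (Finset.mem_univ i0),
    if_pos rfl, Finset.card_singleton, one_mul]
  have h2 : ∀ i ∈ Finset.univ.erase i0,
      (if i = i0 then ({0} : Finset ℕ) else Finset.range (N + 1)).card = N + 1 := by
    intro i hi
    rw [if_neg (Finset.ne_of_mem_erase hi), Finset.card_range]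
  rw [Finset.prod_congr rfl h2, Finset.prod_const, Finset.card_erase_of_mem (Finset.mem_univ _),
    Finset.card_univ, Fintype.card_fin]

end S74

open S74

theorem st_ALG (hLIFTD : ST_LIFTD) (hTRD : ST_TRD) (hCOORDL : ST_COORDL) (hSPAN : ST_SPAN)
    (hLIND : ST_LIND) : ST_ALG := by
  classical
  intro K L _ _ _ _ _ _ _ n t y hc v hv hv0
  choose T hT1 hT2 using fun i => hLIFTD K L (t i) (hc.1 i)
  obtain ⟨hcomm, hrep⟩ := hCOORDL K L n t y hc T hT1 hT2
  have hrv := hrep v hv
  -- a nonzero coefficient
  obtain ⟨i0, hi0⟩ : ∃ i0 : Fin n, v (algebraMap K L (y i0)) ≠ 0 := by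
    by_contra hall
    push Not at hall
    apply hv0
    rw [hrv]
    apply Finset.sum_eq_zero
    intro i _
    rw [hall i]
    apply LinearMap.ext
    intro x
    show (0 : L) * T i x = 0
    rw [zero_mul]
  have hn : 1 ≤ n := Nat.succ_le_of_lt (Nat.lt_of_le_of_lt (Nat.zero_le _) i0.isLt)
  obtain ⟨m, hm⟩ := num n (Module.finrank K L) hn
  -- the relations on the kernel
  have hS : ∀ α : Fin n → ℕ, ∃ c : (Fin n → ℕ) → L, ∑ i, α i ≤ n * m →
      ∀ f : L, (∑ i, v (algebraMap K L (y i)) * T i f = 0) →
      tmon T α f = ∑ β ∈ (Fintype.piFinset fun _ : Fin n => Finset.range (n * m + 1)).filter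
        (fun β => β i0 = 0), c β * tmon T β f := by
    intro α
    by_cases hα : ∑ i, α i ≤ n * m
    · obtain ⟨c, h⟩ := hSPAN L n T (fun i => v (algebraMap K L (y i))) i0 hT1 hcomm hi0
        (n * m) α hα
      exact ⟨c, fun _ => h⟩
    · exact ⟨0, fun h => absurd h hα⟩
  choose cc hcc using hS
  set A : Finset (Fin n → ℕ) := Fintype.piFinset fun _ : Fin n => Finset.range (m + 1) with hA
  set B : Finset (Fin n → ℕ) := (Fintype.piFinset fun _ : Fin n =>
    Finset.range (n * m + 1)).filter (fun β => β i0 = 0) with hB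
  have hAcard : A.card = (m + 1) ^ n := by
    rw [hA, Fintype.card_piFinset_const, Finset.card_range]
  have hAdeg : ∀ α ∈ A, ∑ i, α i ≤ n * m := by
    intro α hα
    rw [hA, Fintype.mem_piFinset] at hα
    calc ∑ i, α i ≤ ∑ _i : Fin n, m := Finset.sum_le_sum fun i _ => by
          have := Finset.mem_range.1 (hα i)
          omega
      _ = n * m := by
          rw [Finset.sum_const, Finset.card_univ, Fintype.card_fin, smul_eq_mul]
  have hBcard : B.card ≤ (n * m + 1) ^ (n - 1) := cardB n (n * m) i0
  -- the linear system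
  let Ψ : (A → K) →ₗ[K] (B → L) :=
    LinearMap.pi fun β => ∑ α : A, ((LinearMap.toSpanSingleton K L (cc α β)).comp
      (LinearMap.proj α : (A → K) →ₗ[K] K))
  have hΨ : ∀ (c : A → K) (β : B), Ψ c β = ∑ α : A, algebraMap K L (c α) * cc α β := by
    intro c β
    simp only [Ψ, LinearMap.pi_apply, LinearMap.sum_apply, LinearMap.comp_apply,
      LinearMap.proj_apply, LinearMap.toSpanSingleton_apply]
    apply Finset.sum_congr rfl
    intro α _
    rw [Algebra.smul_def]
  have hker : LinearMap.ker Ψ ≠ ⊥ := by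
    apply LinearMap.ker_ne_bot_of_finrank_lt
    rw [Module.finrank_pi, Module.finrank_pi_fintype]
    simp only [Finset.sum_const, Finset.card_univ, Fintype.card_coe, smul_eq_mul]
    rw [hAcard]
    exact lt_of_le_of_lt (Nat.mul_le_mul_right _ hBcard) hm
  obtain ⟨c, hcker, hc0⟩ := (Submodule.ne_bot_iff _).1 hker
  rw [LinearMap.mem_ker] at hcker
  let c' : (Fin n → ℕ) → K := fun α => if h : α ∈ A then c ⟨α, h⟩ else 0
  have hc' : ∀ α : A, c' α = c α := by
    intro α
    simp only [c']
    rw [dif_pos α.2]
  have hsys : ∀ β ∈ B, ∑ α ∈ A, algebraMap K L (c' α) * cc α β = 0 := by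
    intro β hβ
    have h1 := hΨ c ⟨β, hβ⟩
    rw [hcker] at h1
    rw [← Finset.sum_coe_sort A]
    have h2 : ∑ α : A, algebraMap K L (c' α) * cc α β =
        ∑ α : A, algebraMap K L (c α) * cc α β := by
      apply Finset.sum_congr rfl
      intro α _
      rw [hc' α]
    rw [h2]
    exact h1.symm
  refine ⟨∑ α ∈ A, mulOp (c' α) * tmon t α, ?_, ?_, ?_⟩
  · apply sum_mem
    intro α _
    apply mul_mem
    · exact Algebra.subset_adjoin (Or.inl ⟨_, rfl⟩)
    · unfold tmon
      apply list_prod_mem
      intro x hx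
      rw [List.mem_ofFn] at hx
      obtain ⟨i, rfl⟩ := hx
      show t i ^ α i ∈ DK K
      refine pow_mem ?_ _
      exact Algebra.subset_adjoin (Or.inr (hc.1 i))
  · intro h0
    apply hc0
    funext α
    rw [← hc' α]
    exact hLIND K n t y hc A c' h0 α α.2
  · intro f hf
    have hf' : ∑ i, v (algebraMap K L (y i)) * T i f = 0 := by
      have h1 := congrArg (fun P : Module.End ℂ L => P f) hrv
      simp only [LinearMap.sum_apply, Module.End.mul_apply] at h1
      rw [hf] at h1
      rw [h1]
      rfl
    have hTr : ∀ i, ∀ g : L, Algebra.trace K L (T i g) = t i (Algebra.trace K L g) := fun i g =>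
      hTRD K L (t i) (T i) (hc.1 i) (hT1 i) (hT2 i) g
    have h1 : (∑ α ∈ A, mulOp (c' α) * tmon t α) (Algebra.trace K L f) =
        Algebra.trace K L (∑ α ∈ A, algebraMap K L (c' α) * tmon T α f) := by
      rw [LinearMap.sum_apply, map_sum]
      apply Finset.sum_congr rfl
      intro α _
      rw [Module.End.mul_apply, ← Algebra.smul_def, map_smul, smul_eq_mul,
        tr_mon n t T hTr α f]
      rfl
    rw [h1]
    have h2 : ∑ α ∈ A, algebraMap K L (c' α) * tmon T α f = 0 := by
      calc ∑ α ∈ A, algebraMap K L (c' α) * tmon T α f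
          = ∑ α ∈ A, ∑ β ∈ B, algebraMap K L (c' α) * cc α β * tmon T β f := by
            apply Finset.sum_congr rfl
            intro α hα
            rw [hcc α (hAdeg α hα) f hf', Finset.mul_sum]
            apply Finset.sum_congr rfl
            intro β _
            rw [mul_assoc]
        _ = ∑ β ∈ B, (∑ α ∈ A, algebraMap K L (c' α) * cc α β) * tmon T β f := by
            rw [Finset.sum_comm]
            apply Finset.sum_congr rfl
            intro β _
            rw [Finset.sum_mul]
        _ = 0 := by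
            apply Finset.sum_eq_zero
            intro β hβ
            rw [hsys β hβ, zero_mul]
    rw [h2, map_zero]

end Pool.Agent.Helper15.DAK
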